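import Pool.Agent.R59.DA.Stm

/-! Piece AES of the project DA (helper415): the induction of the directed Andrasfai-Erdos-Sos
theorem. -/

set_option autoImplicit false

namespace Pool.Agent.R415.DA

open Classical R59.DA

theorem cons_f {V : Type} {D : V → V → Prop} {S : Finset V} {r : ℕ} {f : Fin r → V} {x : V}
    (hf : ∀ i, f i ∈ S) (ht : ∀ i j, i < j → D (f i) (f j)) (hx : x ∈ S)
    (hD : ∀ i, D x (f i)) :
    (∀ i, (Fin.cons x f : Fin (r + 1) → V) i ∈ S) ∧
      ∀ i j : Fin (r + 1), i < j → D ((Fin.cons x f : Fin (r + 1) → V) i)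
        ((Fin.cons x f : Fin (r + 1) → V) j) := by
  constructor
  · intro i
    refine Fin.cases ?_ (fun i => ?_) i
    · simpa using hx
    · simpa using hf i
  · intro i j
    refine Fin.cases ?_ (fun j => ?_) j
    · intro h; exact absurd h (Fin.not_lt_zero i)
    · refine Fin.cases ?_ (fun i => ?_) i
      · intro _; simpa using hD j
      · intro h; simpa using ht i j (Fin.succ_lt_succ_iff.1 h)

theorem snoc_f {V : Type} {D : V → V → Prop} {S : Finset V} {r : ℕ} {f : Fin r → V} {x : V}
    (hf : ∀ i, f i ∈ S) (ht : ∀ i j, i < j → D (f i) (f j)) (hx : x ∈ S)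
    (hD : ∀ i, D (f i) x) :
    (∀ i, (Fin.snoc f x : Fin (r + 1) → V) i ∈ S) ∧
      ∀ i j : Fin (r + 1), i < j → D ((Fin.snoc f x : Fin (r + 1) → V) i)
        ((Fin.snoc f x : Fin (r + 1) → V) j) := by
  constructor
  · intro i
    refine Fin.lastCases ?_ (fun i => ?_) i
    · simpa using hx
    · simpa using hf i
  · intro i j
    refine Fin.lastCases ?_ (fun i => ?_) i
    · intro h; exact absurd h (not_lt.2 (Fin.le_last j))
    · refine Fin.lastCases ?_ (fun j => ?_) j
      · intro _; simpa using hD i
      · intro h; simpa using ht i j (Fin.castSucc_lt_castSucc_iff.1 h)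

theorem outIn_subset {V : Type} (D : V → V → Prop) (S : Finset V) (v : V) : outIn D S v ⊆ S :=
  Finset.filter_subset _ _

theorem mem_outIn {V : Type} {D : V → V → Prop} {S : Finset V} {v w : V} :
    w ∈ outIn D S v ↔ w ∈ S ∧ D v w := by simp [outIn]

/-- independent sets are small -/
theorem indep_small {V : Type} {D : V → V → Prop} {S I : Finset V} {g : ℝ} (hg : 0 < g)
    (hS : ∀ v ∈ S, (S.card : ℝ) - (outIn D S v).card < g) (hI : I ⊆ S)
    (hi : ∀ u ∈ I, ∀ v ∈ I, ¬ D u v) : (I.card : ℝ) < g := by
  rcases I.eq_empty_or_nonempty with rfl | ⟨v, hv⟩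
  · simpa using hg
  · have h1 : Disjoint I (outIn D S v) := by
      rw [Finset.disjoint_left]
      intro w hw hw'
      exact hi v hv w hw (mem_outIn.1 hw').2
    have h2 : (I ∪ outIn D S v).card ≤ S.card :=
      Finset.card_le_card (Finset.union_subset hI (outIn_subset D S v))
    rw [Finset.card_union_of_disjoint h1] at h2
    have h3 : (I.card : ℝ) + (outIn D S v).card ≤ S.card := by exact_mod_cast h2
    have h4 := hS v (hI hv)
    linarith

theorem aes (h1 : SGR) (h2 : SSTR) : SAES := by
  intro k
  induction k with
  | zero =>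
    intro V D S hirr hT _
    refine ⟨fun _ => 0, fun u hu v hv huv => ?_⟩
    exfalso
    apply hT
    obtain ⟨ha, hb⟩ := cons_f (D := D) (S := S) (r := 1) (f := fun _ => v) (x := u)
      (fun _ => hv) (fun i j hij => by
        exfalso; rw [Subsingleton.elim i j] at hij; exact lt_irrefl _ hij) hu (fun _ => huv)
    exact ⟨_, ha, hb⟩
  | succ k ih =>
    intro V D S hirr hT hdeg
    rcases S.eq_empty_or_nonempty with rfl | hSne
    · exact ⟨fun _ => 0, fun u hu => absurd hu (Finset.notMem_empty u)⟩
    have hm : (0 : ℝ) < S.card := by exact_mod_cast hSne.card_pos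
    have hk : (0 : ℝ) ≤ k := Nat.cast_nonneg k
    have hk5 : (0 : ℝ) < 3 * (k : ℝ) + 5 := by linarith
    set μ : ℝ := (S.card : ℝ) / (3 * k + 5) with hμd
    have hμ : 0 < μ := div_pos hm hk5
    have hμm : (3 * (k : ℝ) + 5) * μ = S.card := by
      rw [hμd]; field_simp
    have hout : ∀ v ∈ S, (3 * (k : ℝ) + 2) * μ < (outIn D S v).card := by
      intro v hv
      have h := hdeg v hv
      push_cast at h
      rw [← hμm] at h
      have h' : (3 * (k : ℝ) + 5) * ((3 * (k : ℝ) + 2) * μ) <
          (3 * (k : ℝ) + 5) * (outIn D S v).card := by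
        nlinarith
      exact lt_of_mul_lt_mul_left h' hk5.le
    have hout' : ∀ v ∈ S, (S.card : ℝ) - (outIn D S v).card < 3 * μ := by
      intro v hv
      have := hout v hv
      rw [← hμm]
      nlinarith
    have hcol : ∀ x ∈ S, ∃ c : V → Fin (k + 1), ∀ u ∈ outIn D S x, ∀ v ∈ outIn D S x,
        D u v → c u ≠ c v := by
      intro x hx
      apply ih V D (outIn D S x) hirr
      · rintro ⟨f, hf, hft⟩
        apply hT
        obtain ⟨ha, hb⟩ := cons_f (D := D) (S := S) (r := k + 2) (f := f) (x := x)
          (fun i => (mem_outIn.1 (hf i)).1) hft hx (fun i => (mem_outIn.1 (hf i)).2)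
        exact ⟨_, ha, hb⟩
      · intro v hv
        have hvS : v ∈ S := (mem_outIn.1 hv).1
        have hsub : (outIn D S v) \ (outIn D (outIn D S x) v) ⊆ S \ outIn D S x := by
          intro w hw
          rw [Finset.mem_sdiff, mem_outIn, mem_outIn] at hw
          rw [Finset.mem_sdiff]
          refine ⟨hw.1.1, fun hw' => hw.2 ⟨hw', hw.1.2⟩⟩
        have hc1 : (outIn D S v).card ≤ (outIn D (outIn D S x) v).card +
            ((outIn D S v) \ (outIn D (outIn D S x) v)).card := by
          have := Finset.card_le_card_sdiff_add_card (s := outIn D S v)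
            (t := outIn D (outIn D S x) v)
          omega
        have hc2 := Finset.card_le_card hsub
        have hc3 : (S \ outIn D S x).card + (outIn D S x).card = S.card :=
          Finset.card_sdiff_add_card_eq_card (outIn_subset D S x)
        have hc4 : ((outIn D S v).card : ℝ) ≤ (outIn D (outIn D S x) v).card +
            ((S.card : ℝ) - (outIn D S x).card) := by
          have h : (outIn D S v).card ≤ (outIn D (outIn D S x) v).card + (S \ outIn D S x).card := by
            omega
          have h' : ((outIn D S v).card : ℝ) ≤ (outIn D (outIn D S x) v).card +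
              ((S \ outIn D S x).card : ℝ) := by exact_mod_cast h
          have h'' : ((S \ outIn D S x).card : ℝ) + (outIn D S x).card = S.card := by
            exact_mod_cast hc3
          linarith
        have hv1 := hout v hvS
        have hx1 := hout x hx
        rw [← hμm] at hc4
        have e1 : ((outIn D S x).card : ℝ) - 3 * μ < (outIn D (outIn D S x) v).card := by
          nlinarith
        nlinarith
    obtain ⟨v0, hv0⟩ := hSne
    obtain ⟨c0, hc0⟩ := hcol v0 hv0
    set N := outIn D S v0 with hN
    have hNS : N ⊆ S := outIn_subset D S v0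
    have hNc := hout v0 hv0
    rw [← hN] at hNc
    have h3μ : 0 < 3 * μ := by linarith
    set P : Fin (k + 1) → Finset V := fun j => N.filter (fun y => c0 y = j) with hP
    have hPN : ∀ j, P j ⊆ N := fun j => Finset.filter_subset _ _
    have hPi : ∀ j, ∀ u ∈ P j, ∀ v ∈ P j, ¬ D u v := by
      intro j u hu v hv huv
      have hu' := Finset.mem_filter.1 hu
      have hv' := Finset.mem_filter.1 hv
      exact hc0 u hu'.1 v hv'.1 huv (hu'.2.trans hv'.2.symm)
    have hPs : ∀ j, ((P j).card : ℝ) < 3 * μ := fun j =>
      indep_small h3μ hout' ((hPN j).trans hNS) (hPi j)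
    have hPd : ∀ i j, i ≠ j → Disjoint (P i) (P j) := by
      intro i j hij
      rw [Finset.disjoint_left]
      intro w hw hw'
      exact hij ((Finset.mem_filter.1 hw).2.symm.trans (Finset.mem_filter.1 hw').2)
    have hPsum : (N.card : ℝ) = ∑ j, ((P j).card : ℝ) := by
      have := Finset.card_eq_sum_card_fiberwise (f := c0) (s := N) (t := Finset.univ)
        (fun _ _ => Finset.mem_coe.2 (Finset.mem_univ _))
      rw [this]
      push_cast
      rfl
    have hPb : ∀ j, 2 * μ < ((P j).card : ℝ) := by
      intro j
      have hs : ∑ i, ((P i).card : ℝ) = (P j).card + ∑ i ∈ Finset.univ.erase j, ((P i).card : ℝ) :=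
        (Finset.add_sum_erase _ _ (Finset.mem_univ j)).symm
      have hle : ∑ i ∈ Finset.univ.erase j, ((P i).card : ℝ) ≤
          ∑ _i ∈ Finset.univ.erase j, (3 * μ) :=
        Finset.sum_le_sum fun i _ => (hPs i).le
      rw [Finset.sum_const, Finset.card_erase_of_mem (Finset.mem_univ j), Finset.card_univ,
        Fintype.card_fin, nsmul_eq_mul, Nat.add_sub_cancel] at hle
      rw [hPsum, hs] at hNc
      nlinarith
    obtain ⟨f, hf, hft⟩ := h1 V D S (3 * μ) h3μ hout' k N hNS (by nlinarith)
    have hfS : ∀ i, f i ∈ S := fun i => hNS (hf i)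
    set B := S.filter (fun w => ∀ i, D (f i) w) with hB
    have hBS : B ⊆ S := Finset.filter_subset _ _
    have hBc : 2 * μ < (B.card : ℝ) := by
      have hsub : S \ B ⊆ Finset.univ.biUnion (fun i : Fin (k + 1) => S \ outIn D S (f i)) := by
        intro w hw
        rw [Finset.mem_sdiff, hB, Finset.mem_filter] at hw
        rw [Finset.mem_biUnion]
        by_contra hcon
        push Not at hcon
        apply hw.2
        refine ⟨hw.1, fun i => ?_⟩
        have := hcon i (Finset.mem_univ i)
        rw [Finset.mem_sdiff, mem_outIn] at this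
        by_contra hD
        exact this ⟨hw.1, fun h => hD h.2⟩
      have hle : (S \ B).card ≤ ∑ i : Fin (k + 1), (S \ outIn D S (f i)).card :=
        (Finset.card_le_card hsub).trans Finset.card_biUnion_le
      have hle' : ((S \ B).card : ℝ) ≤ ∑ i : Fin (k + 1), ((S \ outIn D S (f i)).card : ℝ) := by
        exact_mod_cast hle
      have hlt : ∑ i : Fin (k + 1), ((S \ outIn D S (f i)).card : ℝ) <
          ∑ _i : Fin (k + 1), (3 * μ) := by
        apply Finset.sum_lt_sum_of_nonempty Finset.univ_nonempty
        intro i _
        have h := hout' (f i) (hfS i)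
        have hc3 : (S \ outIn D S (f i)).card + (outIn D S (f i)).card = S.card :=
          Finset.card_sdiff_add_card_eq_card (outIn_subset D S (f i))
        have h'' : ((S \ outIn D S (f i)).card : ℝ) + (outIn D S (f i)).card = S.card := by
          exact_mod_cast hc3
        linarith
      rw [Finset.sum_const, Finset.card_univ, Fintype.card_fin, nsmul_eq_mul] at hlt
      have hc3 : (S \ B).card + B.card = S.card := Finset.card_sdiff_add_card_eq_card hBS
      have h'' : ((S \ B).card : ℝ) + B.card = S.card := by exact_mod_cast hc3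
      push_cast at hlt
      rw [← hμm] at h''
      nlinarith
    have hBi : ∀ u ∈ B, ∀ v ∈ B, ¬ D u v := by
      intro u hu v hv huv
      have hu' := Finset.mem_filter.1 hu
      have hv' := Finset.mem_filter.1 hv
      obtain ⟨ha, hb⟩ := snoc_f (D := D) (S := S) hfS hft hu'.1 hu'.2
      obtain ⟨ha', hb'⟩ := snoc_f (D := D) (S := S) (x := v) ha hb hv'.1 (by
        intro i
        refine Fin.lastCases ?_ (fun i => ?_) i
        · simpa using huv
        · simpa using hv'.2 i)
      exact hT ⟨_, ha', hb'⟩
    have hBN : Disjoint N B := by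
      rw [Finset.disjoint_left]
      intro b hbN hbB
      have hb' := Finset.mem_filter.1 hbB
      obtain ⟨ha, hb⟩ := snoc_f (D := D) (S := S) hfS hft hb'.1 hb'.2
      obtain ⟨ha', hb''⟩ := cons_f (D := D) (S := S) (x := v0) ha hb hv0 (by
        intro i
        refine Fin.lastCases ?_ (fun i => ?_) i
        · simpa using (mem_outIn.1 hbN).2
        · simpa using (mem_outIn.1 (hf i)).2)
      exact hT ⟨_, ha', hb''⟩
    refine h2 k V D S μ hirr hμ hμm hT hout' hcol (Fin.snoc (α := fun _ => Finset V) P B)
      ?_ ?_ ?_ ?_
    · intro i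
      refine Fin.lastCases ?_ (fun i => ?_) i
      · simpa using hBS
      · simpa using (hPN i).trans hNS
    · intro i j
      refine Fin.lastCases ?_ (fun i => ?_) i
      · refine Fin.lastCases ?_ (fun j => ?_) j
        · intro h; exact absurd rfl h
        · intro _
          simpa using (hBN.mono_left (hPN j)).symm
      · refine Fin.lastCases ?_ (fun j => ?_) j
        · intro _
          simpa using hBN.mono_left (hPN i)
        · intro h
          simpa using hPd i j (fun h' => h (by rw [h']))
    · intro i
      refine Fin.lastCases ?_ (fun i => ?_) i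
      · simpa using hBi
      · simpa using hPi i
    · intro i
      refine Fin.lastCases ?_ (fun i => ?_) i
      · simpa using hBc
      · simpa using hPb i

end Pool.Agent.R415.DA
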