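import Pool.Agent.R684.PN.Stm

set_option autoImplicit false

open scoped InnerProductSpace InnerProduct ENNReal

/-! Piece CMP of `Pool.Agent.R684.PN` (see `Pool/Agent/R684/PN/NOTES.md`). -/

namespace Pool.Agent.R415.PNCMP

open Pool.Agent.W649.ZL Pool.Agent.R684.PN

theorem memlp_comp_inj {X Y : Type} (e : X → Y) (he : Function.Injective e)
    (f : lp (fun _ : Y => ℂ) 2) : Memℓp (fun x => f (e x)) 2 := by
  rw [memlp_two_iff]
  exact ((memlp_two_iff _).1 f.2).comp_injective he

theorem norm_sq_lp {X : Type} (f : lp (fun _ : X => ℂ) 2) : ‖f‖ ^ 2 = ∑' x, ‖f x‖ ^ 2 := by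
  have := lp.norm_rpow_eq_tsum (p := 2) (by norm_num) f
  simpa using this

/-- restriction along an injection -/
noncomputable def resL {X Y : Type} (e : X → Y) (he : Function.Injective e) :
    lp (fun _ : Y => ℂ) 2 →L[ℂ] lp (fun _ : X => ℂ) 2 :=
  LinearMap.mkContinuous
    { toFun := fun f => ⟨fun x => f (e x), memlp_comp_inj e he f⟩
      map_add' := fun f g => by ext x; rfl
      map_smul' := fun c f => by ext x; rfl } 1 (by
    intro f
    rw [one_mul]
    have h1 : ‖(⟨fun x => f (e x), memlp_comp_inj e he f⟩ : lp (fun _ : X => ℂ) 2)‖ ^ 2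
        ≤ ‖f‖ ^ 2 := by
      rw [norm_sq_lp, norm_sq_lp]
      exact tsum_comp_le_tsum_of_inj ((memlp_two_iff _).1 f.2)
        (fun x => by positivity) he
    exact (sq_le_sq₀ (norm_nonneg _) (norm_nonneg _)).1 h1)

theorem resL_apply {X Y : Type} (e : X → Y) (he : Function.Injective e)
    (f : lp (fun _ : Y => ℂ) 2) (x : X) : resL e he f x = f (e x) := rfl

theorem t_CMP : S_CMP := by
  classical
  intro Γ H S J _ _ _ _ ι hι U hUc hU B hB hker m g hg
  have : CompleteSpace U := hUc.completeSpace_coe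
  set e : H × (Fin m × S) → Γ × S := fun y => (g y.2.1 * ι y.1, y.2.2) with he
  have hei : Function.Injective e := by
    rintro ⟨h, t, s⟩ ⟨h', t', s'⟩ hh
    simp only [he, Prod.mk.injEq] at hh
    obtain ⟨h1, h2⟩ := hh
    have h3 : g t * ι (h * h'⁻¹) = g t' := by
      rw [map_mul, map_inv, ← mul_assoc, h1]; group
    have ht : t = t' := hg t t' _ h3
    subst ht
    have h4 : ι h = ι h' := mul_left_cancel h1
    have h5 := hι h4
    subst h5; subst h2
    rfl
  set R : EE Γ S →L[ℂ] EE H (Fin m × S) := resL e hei with hR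
  set Q : EE H (Fin m × S) →L[ℂ] EE Γ S := ContinuousLinearMap.adjoint R with hQ
  have hRtr : ∀ (k : H) (f : EE Γ S), R (tr (ι k) f) = tr k (R f) := by
    intro k f
    ext ⟨h, t, s⟩
    rw [hR, resL_apply, tr_apply, tr_apply, resL_apply]
    simp only [he, map_mul, mul_assoc]
  have hQtr : ∀ (k : H) (x : EE H (Fin m × S)), Q (tr k x) = tr (ι k) (Q x) := by
    intro k x
    apply ext_inner_right ℂ
    intro v
    rw [hQ, ContinuousLinearMap.adjoint_inner_left, inner_tr_left, ← hRtr, map_inv,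
      inner_tr_left, ContinuousLinearMap.adjoint_inner_left]
  have hRdl : ∀ y, R (dl (e y)) = dl y := by
    intro y
    ext y'
    rw [hR, resL_apply]
    by_cases hy : y' = y
    · rw [hy, dl_apply_self, dl_apply_self]
    · rw [dl_apply_ne _ _ hy, dl_apply_ne]
      exact fun h => hy (hei h)
  have hQv : ∀ (v : EE H (Fin m × S)) y, (Q v) (e y) = v y := by
    intro v y
    rw [← inner_dl_left (e y), hQ, ContinuousLinearMap.adjoint_inner_right, hRdl, inner_dl_left]
  have hRQ : ∀ v, R (Q v) = v := by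
    intro v
    ext y
    rw [hR, resL_apply, hQv]
  have hQn : ∀ v, ‖Q v‖ = ‖v‖ := by
    intro v
    have h : ⟪Q v, Q v⟫_ℂ = ⟪v, v⟫_ℂ := by
      conv_lhs => rw [hQ, ContinuousLinearMap.adjoint_inner_left, ← hQ, hRQ]
    rw [inner_self_eq_norm_sq_to_K, inner_self_eq_norm_sq_to_K] at h
    have h2 : ‖Q v‖ ^ 2 = ‖v‖ ^ 2 := by exact_mod_cast h
    exact (sq_eq_sq₀ (norm_nonneg _) (norm_nonneg _)).1 h2
  set T : EE H (Fin m × S) →L[ℂ] EE H J := B.comp (U.starProjection.comp Q) with hT
  have hTe : Eqv T := by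
    intro k f
    rw [hT]
    simp only [ContinuousLinearMap.comp_apply]
    rw [hQtr, proj_tr hU, hB]
  have hrn := rank_nullity T hTe (U := ⊤) (fun _ _ _ => trivial) isClosed_univ
  rw [top_inf_eq, vd_top] at hrn
  have hle : vd ((⊤ : Submodule ℂ (EE H (Fin m × S))).map (T : EE H (Fin m × S) →ₗ[ℂ] EE H J))
      ≤ Fintype.card J := by
    rw [← vd_top (G := H) (J := J)]
    exact vd_mono le_top
  set K : Submodule ℂ (EE H (Fin m × S)) :=
    LinearMap.ker (T : EE H (Fin m × S) →ₗ[ℂ] EE H J) with hK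
  have hKc : IsClosed (K : Set (EE H (Fin m × S))) := ContinuousLinearMap.isClosed_ker T
  have : CompleteSpace K := hKc.completeSpace_coe
  have hvK : vd K = ∑ y : Fin m × S, ‖K.starProjection (dl ((1 : H), y))‖ ^ 2 :=
    vd_eq _ _ (topcl_eq hKc)
  have hvU : vd U = ∑ s : S, ‖U.starProjection (dl ((1 : Γ), s))‖ ^ 2 :=
    vd_eq _ _ (topcl_eq hUc)
  have key : ∀ (t : Fin m) (s : S), ‖K.starProjection (dl ((1 : H), (t, s)))‖ ^ 2
      ≤ 1 - ‖U.starProjection (dl ((1 : Γ), s))‖ ^ 2 := by
    intro t s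
    set v := K.starProjection (dl ((1 : H), (t, s))) with hv
    have hvm : v ∈ K := Submodule.starProjection_apply_mem _ _
    have hPQ : U.starProjection (Q v) = 0 := by
      apply hker _ (Submodule.starProjection_apply_mem _ _)
      exact hvm
    set d : EE Γ S := dl (e ((1 : H), (t, s))) with hd
    have h1 : ‖v‖ ^ 2 = (⟪d, Q v⟫_ℂ).re := by
      rw [hv, norm_sq_star, ← hv, inner_dl_left, hd, inner_dl_left, hQv]
    have h2 : ⟪U.starProjection d, Q v⟫_ℂ = 0 := by
      have := Submodule.starProjection_inner_eq_zero (Q v) (U.starProjection d)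
        (Submodule.starProjection_apply_mem U d)
      rw [hPQ, sub_zero] at this
      rw [← inner_conj_symm, this, map_zero]
    have h3 : ⟪d, Q v⟫_ℂ = ⟪d - U.starProjection d, Q v⟫_ℂ := by
      rw [inner_sub_left, h2, sub_zero]
    have h4 : ‖v‖ ^ 2 ≤ ‖d - U.starProjection d‖ * ‖v‖ := by
      rw [h1, h3]
      refine (Complex.re_le_norm _).trans ?_
      refine (norm_inner_le_norm _ _).trans ?_
      rw [hQn]
    have h5 : ‖v‖ ≤ ‖d - U.starProjection d‖ := by
      by_contra hcon
      push Not at hcon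
      have hp : 0 < ‖v‖ := lt_of_le_of_lt (norm_nonneg _) hcon
      nlinarith
    have h6 : ‖d‖ ^ 2 = ‖U.starProjection d‖ ^ 2 + ‖d - U.starProjection d‖ ^ 2 := by
      have h7 : ⟪U.starProjection d, d - U.starProjection d⟫_ℂ = 0 := by
        rw [← inner_conj_symm, Submodule.starProjection_inner_eq_zero d _
          (Submodule.starProjection_apply_mem U d), map_zero]
      have h8 := norm_add_sq_eq_norm_sq_add_norm_sq_of_inner_eq_zero _ _ h7
      rw [add_sub_cancel] at h8
      simpa [sq] using h8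
    have h9 : ‖d‖ = 1 := by rw [hd, norm_dl]
    have h10 : ‖U.starProjection d‖ = ‖U.starProjection (dl ((1 : Γ), s))‖ := by
      have : d = tr (g t)⁻¹ (dl ((1 : Γ), s)) := by
        rw [tr_dl, hd, he]; simp
      rw [this, proj_tr hU, norm_tr]
    have h11 : ‖v‖ ^ 2 ≤ ‖d - U.starProjection d‖ ^ 2 := by
      gcongr
    rw [h9, h10] at h6
    linarith
  have hsum : vd K ≤ (m : ℝ) * Fintype.card S - m * vd U := by
    rw [hvK, Fintype.sum_prod_type, hvU]
    calc _ ≤ ∑ _t : Fin m, ∑ s : S, (1 - ‖U.starProjection (dl ((1 : Γ), s))‖ ^ 2) :=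
          Finset.sum_le_sum fun t _ => Finset.sum_le_sum fun s _ => key t s
      _ = _ := by
          simp only [Finset.sum_sub_distrib, Finset.sum_const, Finset.card_univ,
            Fintype.card_fin, nsmul_eq_mul, mul_one]
  have hcard : ((Fintype.card (Fin m × S) : ℕ) : ℝ) = m * Fintype.card S := by
    simp
  rw [hcard] at hrn
  linarith

end Pool.Agent.R415.PNCMP
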